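import Pool.Agent.Helper10.RC.Basic

open scoped ENNReal NNReal InnerProductSpace ComplexOrder
open Filter Topology

attribute [-instance] CStarMatrix.instAlgebra CStarMatrix.instModule CStarMatrix.instSMul
  CStarMatrix.instMulAction CStarMatrix.instDistribMulAction

noncomputable section
namespace RC
universe u

set_option linter.unusedSectionVars false
set_option linter.unusedVariables false

namespace H19Cross
section
variable {A : Type u} [CStarAlgebra A] [PartialOrder A] [StarOrderedRing A]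
  {G : Type} [Group G] [Fintype G] [DecidableEq G]

theorem act_one {α : G → A ≃⋆ₐ[ℂ] A} (h : IsAct α) (a : A) : α 1 a = a := by
  apply EquivLike.injective (α 1)
  rw [← h, mul_one]

theorem act_inv_left {α : G → A ≃⋆ₐ[ℂ] A} (h : IsAct α) (g : G) (a : A) :
    α g⁻¹ (α g a) = a := by
  rw [← h, inv_mul_cancel, act_one h]

theorem act_inv_right {α : G → A ≃⋆ₐ[ℂ] A} (h : IsAct α) (g : G) (a : A) :
    α g (α g⁻¹ a) = a := by
  rw [← h, mul_inv_cancel, act_one h]

/-- the map `β_k` -/
def bf (α : G → A ≃⋆ₐ[ℂ] A) (k : G) (T : CStarMatrix G G A) : CStarMatrix G G A :=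
  CStarMatrix.ofMatrix (Matrix.of fun g h => α k (T (g * k) (h * k)))

theorem bf_apply (α : G → A ≃⋆ₐ[ℂ] A) (k : G) (T : CStarMatrix G G A) (g h : G) :
    bf α k T g h = α k (T (g * k) (h * k)) := rfl

theorem cm_ext {T S : CStarMatrix G G A} (h : ∀ i j, T i j = S i j) : T = S := by
  ext i j
  exact h i j

theorem bf_mul_act {α : G → A ≃⋆ₐ[ℂ] A} (h : IsAct α) (g k : G) (T : CStarMatrix G G A) :
    bf α (g * k) T = bf α g (bf α k T) := by
  apply cm_ext
  intro a b
  rw [bf_apply, bf_apply, bf_apply, h, mul_assoc, mul_assoc]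

theorem bf_one {α : G → A ≃⋆ₐ[ℂ] A} (h : IsAct α) (T : CStarMatrix G G A) : bf α 1 T = T := by
  apply cm_ext
  intro a b
  rw [bf_apply, act_one h, mul_one, mul_one]

/-- `β_k` -/
def be {α : G → A ≃⋆ₐ[ℂ] A} (h : IsAct α) (k : G) :
    CStarMatrix G G A ≃⋆ₐ[ℂ] CStarMatrix G G A where
  toFun := bf α k
  invFun := bf α k⁻¹
  left_inv := fun T => by rw [← bf_mul_act h, inv_mul_cancel, bf_one h]
  right_inv := fun T => by rw [← bf_mul_act h, mul_inv_cancel, bf_one h]
  map_mul' := fun T S => by
    apply cm_ext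
    intro a b
    rw [CStarMatrix.mul_apply, bf_apply, CStarMatrix.mul_apply, map_sum]
    rw [← Equiv.sum_comp (Equiv.mulRight k)]
    apply Finset.sum_congr rfl
    intro l _
    rw [map_mul]
    rfl
  map_add' := fun T S => by
    apply cm_ext
    intro a b
    show α k ((T + S) (a * k) (b * k)) = bf α k T a b + bf α k S a b
    rw [bf_apply, bf_apply, ← map_add]
    rfl
  map_star' := fun T => by
    apply cm_ext
    intro a b
    show α k (star (T (b * k) (a * k))) = star (α k (T (b * k) (a * k)))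
    rw [map_star]
  map_smul' := fun c T => by
    apply cm_ext
    intro a b
    show α k (c • T (a * k) (b * k)) = c • α k (T (a * k) (b * k))
    rw [map_smul]

theorem be_apply {α : G → A ≃⋆ₐ[ℂ] A} (h : IsAct α) (k : G) (T : CStarMatrix G G A) :
    be h k T = bf α k T := rfl

variable {R : Type u} [CStarAlgebra R] {α : G → A ≃⋆ₐ[ℂ] A} {k : A →⋆ₐ[ℂ] R} {u : G → R}

/-- the coefficients -/
def cf (hc : IsCross α k u) (r : R) : G → A := (hc.2.2.2 r).choose

theorem cf_spec (hc : IsCross α k u) (r : R) : r = ∑ g, k (cf hc r g) * u g :=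
  (hc.2.2.2 r).choose_spec.1

theorem cf_unique (hc : IsCross α k u) {r : R} {f : G → A} (h : r = ∑ g, k (f g) * u g) :
    cf hc r = f := ((hc.2.2.2 r).choose_spec.2 f h).symm

theorem u_one (hc : IsCross α k u) : u 1 = 1 := by
  have h1 : u 1 = u 1 * u 1 := by rw [← hc.2.1, mul_one]
  have h2 : star (u 1) * u 1 = 1 := Unitary.star_mul_self_of_mem (hc.1 1)
  calc u 1 = star (u 1) * u 1 * u 1 := by rw [h2, one_mul]
    _ = star (u 1) * (u 1 * u 1) := by rw [mul_assoc]
    _ = star (u 1) * u 1 := by rw [← h1]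
    _ = 1 := h2

theorem u_star (hc : IsCross α k u) (g : G) : star (u g) = u g⁻¹ := by
  have h1 : u g * u g⁻¹ = 1 := by rw [← hc.2.1, mul_inv_cancel, u_one hc]
  have h2 : star (u g) * u g = 1 := Unitary.star_mul_self_of_mem (hc.1 g)
  calc star (u g) = star (u g) * (u g * u g⁻¹) := by rw [h1, mul_one]
    _ = star (u g) * u g * u g⁻¹ := by rw [mul_assoc]
    _ = u g⁻¹ := by rw [h2, one_mul]

theorem u_k (hc : IsCross α k u) (g : G) (a : A) : u g * k a = k (α g a) * u g := by
  have h2 : star (u g) * u g = 1 := Unitary.star_mul_self_of_mem (hc.1 g)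
  rw [← hc.2.2.1 g a, mul_assoc (u g * k a), h2, mul_one]

theorem cf_add (hc : IsCross α k u) (r s : R) : cf hc (r + s) = cf hc r + cf hc s := by
  apply cf_unique
  conv_lhs => rw [cf_spec hc r, cf_spec hc s]
  rw [← Finset.sum_add_distrib]
  apply Finset.sum_congr rfl
  intro g _
  rw [Pi.add_apply, map_add, add_mul]

theorem cf_smul (hc : IsCross α k u) (c : ℂ) (r : R) : cf hc (c • r) = c • cf hc r := by
  apply cf_unique
  conv_lhs => rw [cf_spec hc r]
  rw [Finset.smul_sum]
  apply Finset.sum_congr rfl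
  intro g _
  rw [Pi.smul_apply, map_smul, smul_mul_assoc]

theorem cf_one (hc : IsCross α k u) : cf hc 1 = Pi.single 1 1 := by
  apply cf_unique
  rw [Finset.sum_eq_single 1]
  · rw [Pi.single_eq_same, map_one, u_one hc, one_mul]
  · intro b _ hb
    rw [Pi.single_eq_of_ne hb, map_zero, zero_mul]
  · intro h
    exact absurd (Finset.mem_univ _) h

theorem cf_mul (ha : IsAct α) (hc : IsCross α k u) (r s : R) (x : G) :
    cf hc (r * s) x = ∑ t, cf hc r t * α t (cf hc s (t⁻¹ * x)) := by
  have : cf hc (r * s) = fun x => ∑ t, cf hc r t * α t (cf hc s (t⁻¹ * x)) := by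
    apply cf_unique
    conv_lhs => rw [cf_spec hc r, cf_spec hc s]
    rw [Finset.sum_mul_sum]
    have h1 : ∀ t x : G, k (cf hc r t) * u t * (k (cf hc s x) * u x) =
        k (cf hc r t * α t (cf hc s x)) * u (t * x) := by
      intro t x
      rw [map_mul, hc.2.1]
      calc k (cf hc r t) * u t * (k (cf hc s x) * u x)
          = k (cf hc r t) * (u t * k (cf hc s x)) * u x := by simp only [mul_assoc]
        _ = _ := by rw [u_k hc]; simp only [mul_assoc]
    simp only [h1]
    have h2 : ∀ t : G, ∑ x, k (cf hc r t * α t (cf hc s x)) * u (t * x) =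
        ∑ x, k (cf hc r t * α t (cf hc s (t⁻¹ * x))) * u x := by
      intro t
      rw [← Equiv.sum_comp (Equiv.mulLeft t)
        (fun x => k (cf hc r t * α t (cf hc s (t⁻¹ * x))) * u x)]
      apply Finset.sum_congr rfl
      intro x _
      rw [Equiv.coe_mulLeft, inv_mul_cancel_left]
    simp only [h2]
    rw [Finset.sum_comm]
    apply Finset.sum_congr rfl
    intro x _
    rw [map_sum, Finset.sum_mul]
  rw [this]

theorem cf_star (ha : IsAct α) (hc : IsCross α k u) (r : R) (x : G) :
    cf hc (star r) x = α x (star (cf hc r x⁻¹)) := by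
  have : cf hc (star r) = fun x => α x (star (cf hc r x⁻¹)) := by
    apply cf_unique
    conv_lhs => rw [cf_spec hc r]
    rw [star_sum]
    rw [← Equiv.sum_comp (Equiv.inv G)]
    apply Finset.sum_congr rfl
    intro g _
    rw [star_mul, Equiv.inv_apply, u_star hc, inv_inv, ← map_star, u_k hc]
  rw [this]

/-- the map `jR` -/
def jf (hc : IsCross α k u) (r : R) : CStarMatrix G G A :=
  CStarMatrix.ofMatrix (Matrix.of fun g h => α g⁻¹ (cf hc r (g * h⁻¹)))

theorem jf_apply (hc : IsCross α k u) (r : R) (g h : G) :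
    jf hc r g h = α g⁻¹ (cf hc r (g * h⁻¹)) := rfl

theorem jf_smul (hc : IsCross α k u) (c : ℂ) (r : R) : jf hc (c • r) = c • jf hc r := by
  apply cm_ext
  intro g h
  show α g⁻¹ (cf hc (c • r) (g * h⁻¹)) = c • α g⁻¹ (cf hc r (g * h⁻¹))
  rw [cf_smul, Pi.smul_apply, map_smul]

theorem jf_one (hc : IsCross α k u) : jf hc 1 = 1 := by
  apply cm_ext
  intro g h
  rw [jf_apply, cf_one]
  by_cases hgh : g = h
  · subst hgh
    rw [mul_inv_cancel, Pi.single_eq_same, map_one, CStarMatrix.one_apply_eq]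
  · rw [Pi.single_eq_of_ne, map_zero, CStarMatrix.one_apply_ne hgh]
    intro h1
    exact hgh (mul_inv_eq_one.1 h1)

theorem jf_add (hc : IsCross α k u) (r s : R) : jf hc (r + s) = jf hc r + jf hc s := by
  apply cm_ext
  intro g h
  show α g⁻¹ (cf hc (r + s) (g * h⁻¹)) =
    α g⁻¹ (cf hc r (g * h⁻¹)) + α g⁻¹ (cf hc s (g * h⁻¹))
  rw [cf_add, Pi.add_apply, map_add]

/-- the homomorphism `jR` -/
def jh (ha : IsAct α) (hc : IsCross α k u) : R →⋆ₐ[ℂ] CStarMatrix G G A where
  toFun := jf hc
  map_one' := jf_one hc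
  map_mul' := fun r s => by
    apply cm_ext
    intro g h
    rw [CStarMatrix.mul_apply, jf_apply, cf_mul ha, map_sum]
    rw [← Equiv.sum_comp ((Equiv.inv G).trans (Equiv.mulLeft g))]
    apply Finset.sum_congr rfl
    intro t _
    simp only [Equiv.trans_apply, Equiv.inv_apply, Equiv.coe_mulLeft]
    rw [jf_apply, jf_apply, map_mul, ← ha]
    simp only [mul_inv_rev, inv_inv, mul_assoc, inv_mul_cancel_left]
  map_zero' := by
    have := jf_smul hc 0 (0 : R)
    rwa [zero_smul, zero_smul] at this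
  map_add' := jf_add hc
  commutes' := fun c => by
    rw [Algebra.algebraMap_eq_smul_one, jf_smul, jf_one, Algebra.algebraMap_eq_smul_one]
  map_star' := fun r => by
    apply cm_ext
    intro g h
    show α g⁻¹ (cf hc (star r) (g * h⁻¹)) = star (α h⁻¹ (cf hc r (h * g⁻¹)))
    rw [cf_star ha, ← ha, ← map_star]
    simp only [mul_inv_rev, inv_inv, inv_mul_cancel_left]

theorem jh_apply (ha : IsAct α) (hc : IsCross α k u) (r : R) : jh ha hc r = jf hc r := rfl

end
end H19Cross

open H19Cross in
theorem crossP : CrossP.{u} := by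
  intro A _ _ _ G _ _ _ α R _ k u ha hc
  refine ⟨be ha, jh ha hc, ?_, ⟨?_, ?_⟩, ?_⟩
  · intro g h T
    rw [be_apply, be_apply, be_apply, bf_mul_act ha]
  · intro r s hrs
    rw [jh_apply, jh_apply] at hrs
    have h1 : cf hc r = cf hc s := by
      funext x
      have h2 : jf hc r 1 x⁻¹ = jf hc s 1 x⁻¹ := by rw [hrs]
      rw [jf_apply, jf_apply] at h2
      simpa [act_one ha] using h2
    rw [cf_spec hc r, cf_spec hc s, h1]
  · intro T
    constructor
    · intro hT
      refine ⟨∑ s, k (T 1 s⁻¹) * u s, ?_⟩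
      rw [jh_apply]
      apply cm_ext
      intro g h
      rw [jf_apply, cf_unique hc (f := fun s => T 1 s⁻¹) rfl]
      have h1 : bf α g⁻¹ T g h = T g h := by
        rw [← be_apply ha, hT]
      rw [← h1, bf_apply]
      simp only [mul_inv_rev, inv_inv, mul_inv_cancel]
    · rintro ⟨r, rfl⟩ g
      rw [jh_apply, be_apply]
      apply cm_ext
      intro a b
      rw [bf_apply, jf_apply, jf_apply, ← ha]
      congr 2
      · simp only [mul_inv_rev, mul_inv_cancel_left]
      · simp only [mul_inv_rev, mul_assoc, mul_inv_cancel_left]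
  · intro φ hφ g T
    have h1 : ∀ i, φ (be ha g T i i) = φ (T (i * g) (i * g)) := by
      intro i
      rw [be_apply, bf_apply, hφ]
    simp only [h1]
    exact Equiv.sum_comp (Equiv.mulRight g) (fun i => φ (T i i))

end RC
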