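import Pool.Agent.Helper10.RC.Basic

open scoped ENNReal NNReal InnerProductSpace ComplexOrder
open Filter Topology

attribute [-instance] CStarMatrix.instAlgebra CStarMatrix.instModule CStarMatrix.instSMul
  CStarMatrix.instMulAction CStarMatrix.instDistribMulAction

noncomputable section
namespace RC
universe u

set_option linter.unusedSectionVars false

namespace H19Csup

variable {H : Type u} [NormedAddCommGroup H] [InnerProductSpace ℂ H] [CompleteSpace H]

/-- the projection onto a subspace invariant under `T` and its adjoint commutes with `T` -/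
theorem proj_comm (K : Submodule ℂ H) [K.HasOrthogonalProjection] (T : H →L[ℂ] H)
    (h1 : ∀ v ∈ K, T v ∈ K) (h2 : ∀ v ∈ K, (star T) v ∈ K) :
    K.starProjection * T = T * K.starProjection := by
  ext v
  show K.starProjection (T v) = T (K.starProjection v)
  apply Submodule.eq_starProjection_of_mem_orthogonal
  · exact h1 _ (Submodule.starProjection_apply_mem K v)
  · rw [← map_sub, Submodule.mem_orthogonal]
    intro w hw
    rw [← ContinuousLinearMap.adjoint_inner_left]
    exact (Submodule.mem_orthogonal K _).1 (Submodule.sub_starProjection_mem_orthogonal v) _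
      (h2 w hw)

theorem cent_star {S : Set (H →L[ℂ] H)} (hS : ∀ x ∈ S, star x ∈ S) {x : H →L[ℂ] H}
    (hx : x ∈ S.centralizer) : star x ∈ S.centralizer := by
  rw [Set.mem_centralizer_iff] at hx ⊢
  intro m hm
  have := congrArg star (hx (star m) (hS m hm))
  rw [star_mul, star_mul, star_star] at this
  exact this.symm

theorem cl_map (K₀ : Submodule ℂ H) (T : H →L[ℂ] H) (h : ∀ v ∈ K₀, T v ∈ K₀) :
    ∀ v ∈ K₀.topologicalClosure, T v ∈ K₀.topologicalClosure := by
  intro v hv
  have h1 : T v ∈ closure (T '' (K₀ : Set H)) := by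
    apply image_closure_subset_closure_image T.continuous
    exact ⟨v, hv, rfl⟩
  refine closure_mono ?_ h1
  rintro _ ⟨w, hw, rfl⟩
  exact h w hw

end H19Csup

open H19Csup in
theorem csupP : CsupP.{u} := by
  intro H _ _ _ S hS p hp hpp
  set K₀ : Submodule ℂ H :=
    Submodule.span ℂ {v | ∃ x ∈ S.centralizer, ∃ ζ : H, v = x (p ζ)} with hK₀
  set K : Submodule ℂ H := K₀.topologicalClosure with hK
  have : CompleteSpace K := (Submodule.isClosed_topologicalClosure K₀).completeSpace_coe
  have hsub : ∀ v ∈ K₀, v ∈ K := fun v hv => K₀.le_topologicalClosure hv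
  -- invariance of `K₀`
  have inv1 : ∀ y ∈ S.centralizer, ∀ v ∈ K₀, y v ∈ K₀ := by
    intro y hy v hv
    induction hv using Submodule.span_induction with
    | mem v hv =>
      obtain ⟨x, hx, ζ, rfl⟩ := hv
      apply Submodule.subset_span
      exact ⟨y * x, Set.mul_mem_centralizer hy hx, ζ, rfl⟩
    | zero => rw [map_zero]; exact K₀.zero_mem
    | add v w _ _ h1 h2 => rw [map_add]; exact K₀.add_mem h1 h2
    | smul c v _ h1 => rw [map_smul]; exact K₀.smul_mem c h1
  have inv2 : ∀ s ∈ S, ∀ v ∈ K₀, s v ∈ K₀ := by
    intro s hs v hv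
    induction hv using Submodule.span_induction with
    | mem v hv =>
      obtain ⟨x, hx, ζ, rfl⟩ := hv
      apply Submodule.subset_span
      refine ⟨x, hx, s ζ, ?_⟩
      have e1 : s * x = x * s := (Set.mem_centralizer_iff.1 hx) s hs
      have e2 : s * p = p * s := (Set.mem_centralizer_iff.1 hp) s hs
      calc s (x (p ζ)) = (s * x) (p ζ) := rfl
        _ = (x * s) (p ζ) := by rw [e1]
        _ = x ((s * p) ζ) := rfl
        _ = x ((p * s) ζ) := by rw [e2]
        _ = x (p (s ζ)) := rfl
    | zero => rw [map_zero]; exact K₀.zero_mem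
    | add v w _ _ h1 h2 => rw [map_add]; exact K₀.add_mem h1 h2
    | smul c v _ h1 => rw [map_smul]; exact K₀.smul_mem c h1
  refine ⟨K.starProjection, ⟨?_, isStarProjection_starProjection, ?_⟩, ?_, ?_⟩
  · rw [Set.mem_centralizer_iff]
    intro s hs
    exact (proj_comm K s (cl_map K₀ s (inv2 s hs)) (cl_map K₀ (star s) (inv2 _ (hS s hs)))).symm
  · intro x hx
    exact proj_comm K x (cl_map K₀ x (inv1 x hx))
      (cl_map K₀ (star x) (inv1 _ (cent_star hS hx)))
  · ext ζ
    show K.starProjection (p ζ) = p ζ
    rw [Submodule.starProjection_eq_self_iff]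
    apply hsub
    apply Submodule.subset_span
    exact ⟨1, Set.one_mem_centralizer, ζ, rfl⟩
  · intro q hq hq0
    have h0 : ∀ v ∈ K₀, q v = 0 := by
      intro v hv
      induction hv using Submodule.span_induction with
      | mem v hv =>
        obtain ⟨x, hx, ζ, rfl⟩ := hv
        have := hq0 x hx
        calc q (x (p ζ)) = (q * x * p) ζ := rfl
          _ = 0 := by rw [this]; rfl
      | zero => rw [map_zero]
      | add v w _ _ h1 h2 => rw [map_add, h1, h2, add_zero]
      | smul c v _ h1 => rw [map_smul, h1, smul_zero]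
    have h1 : ∀ v ∈ K, q v = 0 := by
      intro v hv
      have hc : IsClosed {v : H | q v = 0} := isClosed_eq q.continuous continuous_const
      exact closure_minimal (fun w hw => h0 w hw) hc hv
    ext ζ
    show q (K.starProjection ζ) = 0
    exact h1 _ (Submodule.starProjection_apply_mem K ζ)

end RC
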